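import Pool.Agent.MP_ec20d8_an.Mg.Sphere

namespace Pool.Agent.Results.MP_ec20d8_an.SphereMin

open Pool.Agent.MP_ec20d8_an

theorem result (Ω : Set (EuclideanSpace ℝ (Fin 3))) (ρ : EuclideanSpace ℝ (Fin 3) → ℝ)
    (hρ : IsDefiningFunction Ω ρ) (hb : Bornology.IsBounded Ω) (hc : IsConnected (frontier Ω))
    (p : ℝ) (hp : 2 < p) :
    ∃ t, HasSchattenPow (surfaceMeasure Ω) (npKernel ρ) p t ∧ sphereValue p ≤ t ∧
      (t = sphereValue p ↔ ∃ a r, 0 < r ∧ frontier Ω = Metric.sphere a r) :=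
  main Ω ρ hρ hb hc p hp

end Pool.Agent.Results.MP_ec20d8_an.SphereMin
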